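import Pool.Agent.Helper264.NT.NearExp

/-!
# Iterated logarithms at all algebraic points near almost every point

The question is whether `log log 2` is transcendental: the number `log log s` for `s = 2`.

There is one set `E` of complex numbers of Hausdorff dimension `0` such that for all complex `z` outside of `E` with real part
greater than `1`, all number fields `K ⊂ ℂ`, all degrees `d`, all `A` and ALL exponents `w > 0` (arbitrarily small) there are `B`
and `T₀` such that for all `T ≥ T₀`, at ALL numbers `s` in `K` of height at most `T` with `|s - z| ≤ T ^ (-w)`, the numbers `π`,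
`log s` and `log log s` have no relation over `K` of partial degrees at most `d` and height at most `T ^ A`, not even an
approximate one: all values are greater than `T ^ (-B)`. In particular `log log s` is not algebraic of degree at most `d` and
height at most `T ^ A` over `K(π, log s)`. For `w < 1` there are many such rational `s` for all large `T`. The result below is for
several points `s_1, …, s_n`, outside of a set in `ℂ ^ n` of dimension at most `2 n - 2`.

Proof: the exceptional tuples lie on `C T ^ ε` hypersurfaces of degree at most `D` (`Pool.Agent.Y771.KF.stdK` of helper771 and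
helper124), and the points near such hypersurfaces form a set of small dimension (uniform coverings of the zeros of polynomials
of bounded degree, `Pool.Agent.Helper264.NT.mainK`). The functions `t`, `log t`, `log log t` are algebraically independent, by
their growth.
-/

set_option autoImplicit false

open Height Filter Topology Asymptotics
open scoped ENNReal

namespace Pool.Agent.Results.MP_4cc0e5_nt.LogLogNearEveryPoint

/-- the functions `log t` and `log log t`, principal branches -/
noncomputable def logs (q : Fin 2) (t : ℂ) : ℂ := if q = 0 then Complex.log t else Complex.log (Complex.log t)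

/-- the half plane `Re t > 1` -/
def half : Set ℂ := {t | 1 < t.re}

lemma half_open : IsOpen half := isOpen_lt continuous_const Complex.continuous_re

lemma half_preconn : IsPreconnected half := (convex_halfSpace_re_gt 1).isPreconnected

lemma logs_an (q : Fin 2) : AnalyticOnNhd ℂ (logs q) half := by
  intro t ht
  have ht' : 1 < t.re := ht
  have h1 : t ∈ Complex.slitPlane := Complex.mem_slitPlane_iff.2 (Or.inl (by linarith))
  have h2 : Complex.log t ∈ Complex.slitPlane := by
    refine Complex.mem_slitPlane_iff.2 (Or.inl ?_)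
    rw [Complex.log_re]
    exact Real.log_pos (ht'.trans_le (Complex.re_le_norm t))
  unfold logs
  by_cases hq : q = 0
  · simp only [hq, if_true]
    exact analyticAt_id.clog h1
  · simp only [hq, if_false]
    exact (analyticAt_id.clog h1).clog h2

/-- the real towers -/
noncomputable def rt : ℕ → ℝ → ℝ
  | 0, t => t
  | (k + 1), t => Real.exp (rt k t)

lemma rt_tendsto (k : ℕ) : Tendsto (rt k) atTop atTop := by
  induction k with
  | zero => exact tendsto_id
  | succ k ih => exact Real.tendsto_exp_atTop.comp ih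

lemma rt_le (j k : ℕ) (t : ℝ) (ht : 0 ≤ t) (hjk : j ≤ k) : 0 ≤ rt j t ∧ rt j t ≤ rt k t := by
  have hnn : ∀ k, 0 ≤ rt k t := by
    intro k
    cases k with
    | zero => exact ht
    | succ k => exact (Real.exp_pos _).le
  refine ⟨hnn j, ?_⟩
  induction k, hjk using Nat.le_induction with
  | base => exact le_rfl
  | succ k _ ih =>
    refine ih.trans ?_
    have := Real.add_one_le_exp (rt k t)
    change rt k t ≤ Real.exp (rt k t)
    linarith

/-- the towers in decreasing order -/
noncomputable def u (m : ℕ) (t : ℝ) : Fin m → ℂ := fun i => ((rt (m - 1 - i) t : ℝ) : ℂ)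

lemma u_succ (m : ℕ) (t : ℝ) : u (m + 1) t = Fin.cons ((rt m t : ℝ) : ℂ) (u m t) := by
  funext i
  refine Fin.cases ?_ (fun i => ?_) i
  · rw [Fin.cons_zero]
    simp [u]
  · rw [Fin.cons_succ]
    unfold u
    congr 2
    rw [Fin.val_succ]
    omega

/-- polynomials in the towers below the `m`-th grow more slowly -/
lemma small (m : ℕ) (Q : MvPolynomial (Fin m) ℂ) :
    (fun t : ℝ => MvPolynomial.eval (u m t) Q) =o[atTop] fun t => rt m t := by
  cases m with
  | zero =>
    have h1 : (fun t : ℝ => MvPolynomial.eval (u 0 t) Q) = fun _ => MvPolynomial.eval (u 0 0) Q := by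
      funext t
      congr 2
      exact Subsingleton.elim _ _
    rw [h1]
    exact isLittleO_const_left.2 (Or.inr (tendsto_norm_atTop_atTop.comp (rt_tendsto 0)))
  | succ m =>
    have hvar : ∀ i : Fin (m + 1), (fun t : ℝ => u (m + 1) t i) =O[atTop] fun t => rt m t := by
      intro i
      refine IsBigO.of_bound 1 ?_
      filter_upwards [eventually_ge_atTop (0 : ℝ)] with t ht
      have h1 := rt_le (m + 1 - 1 - i) m t ht (by omega)
      rw [one_mul, u, Complex.norm_real, Real.norm_of_nonneg h1.1, Real.norm_of_nonneg (h1.1.trans h1.2)]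
      exact h1.2
    have hpow : ∃ N : ℕ, (fun t : ℝ => MvPolynomial.eval (u (m + 1) t) Q) =O[atTop] fun t => rt m t ^ N := by
      have hup : ∀ a b : ℕ, a ≤ b → (fun t => rt m t ^ a) =O[atTop] fun t => rt m t ^ b := by
        intro a b hab
        refine IsBigO.of_bound 1 ?_
        filter_upwards [(rt_tendsto m).eventually_ge_atTop 1] with t ht
        rw [one_mul, norm_pow, norm_pow, Real.norm_of_nonneg (by linarith)]
        exact pow_le_pow_right₀ ht hab
      induction Q using MvPolynomial.induction_on with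
      | C a =>
        refine ⟨0, ?_⟩
        simp only [MvPolynomial.eval_C, pow_zero]
        exact isBigO_const_const _ one_ne_zero _
      | add P Q hP hQ =>
        obtain ⟨a, ha⟩ := hP
        obtain ⟨b, hb⟩ := hQ
        refine ⟨max a b, ?_⟩
        simp only [map_add]
        exact (ha.trans (hup _ _ (le_max_left _ _))).add (hb.trans (hup _ _ (le_max_right _ _)))
      | mul_X P i hP =>
        obtain ⟨a, ha⟩ := hP
        refine ⟨a + 1, ?_⟩
        simp only [map_mul, MvPolynomial.eval_X, pow_succ]
        exact ha.mul (hvar i)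
    obtain ⟨N, hN⟩ := hpow
    refine hN.trans_isLittleO ?_
    have h1 := (Real.isLittleO_pow_exp_atTop (n := N)).comp_tendsto (rt_tendsto m)
    exact h1

/-- nonzero polynomials in the towers do not tend to zero -/
lemma big (m : ℕ) (P : MvPolynomial (Fin m) ℂ) (hP : P ≠ 0) :
    ∃ δ : ℝ, 0 < δ ∧ ∀ᶠ t : ℝ in atTop, δ ≤ ‖MvPolynomial.eval (u m t) P‖ := by
  induction m with
  | zero =>
    obtain ⟨a, rfl⟩ := MvPolynomial.C_surjective (Fin 0) P
    refine ⟨‖a‖, norm_pos_iff.2 fun h => hP (by rw [h, map_zero]), ?_⟩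
    simp
  | succ m ih =>
    set p := MvPolynomial.finSuccEquiv ℂ m P with hp
    have hp0 : p ≠ 0 := by
      rw [hp]
      exact (map_ne_zero_iff _ (MvPolynomial.finSuccEquiv ℂ m).injective).2 hP
    have hev : ∀ t, MvPolynomial.eval (u (m + 1) t) P =
        ∑ i ∈ Finset.range (p.natDegree + 1), MvPolynomial.eval (u m t) (p.coeff i) * ((rt m t : ℝ) : ℂ) ^ i := by
      intro t
      rw [u_succ, MvPolynomial.eval_eq_eval_mv_eval', ← hp, Polynomial.eval_eq_sum_range' (n := p.natDegree + 1)]
      · refine Finset.sum_congr rfl fun i _ => ?_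
        rw [Polynomial.coeff_map]
      · exact Nat.lt_succ_of_le Polynomial.natDegree_map_le
    obtain ⟨δ, hδ, hbig⟩ := ih (p.coeff p.natDegree) (by
      rw [Polynomial.coeff_natDegree]
      exact Polynomial.leadingCoeff_ne_zero.2 hp0)
    have hlow : ∀ᶠ t : ℝ in atTop, ∀ i ∈ Finset.range p.natDegree,
        ‖MvPolynomial.eval (u m t) (p.coeff i)‖ ≤ δ / (2 * (p.natDegree + 1)) * rt m t := by
      rw [Filter.eventually_all_finset]
      intro i _
      have h1 := (small m (p.coeff i)).def (c := δ / (2 * (p.natDegree + 1))) (by positivity)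
      filter_upwards [h1, (rt_tendsto m).eventually_ge_atTop 1] with t ht ht1
      rwa [Real.norm_of_nonneg (by linarith : (0 : ℝ) ≤ rt m t)] at ht
    refine ⟨δ / 2, by positivity, ?_⟩
    filter_upwards [hbig, hlow, (rt_tendsto m).eventually_ge_atTop 1] with t h1 h2 h3
    rw [hev, Finset.sum_range_succ]
    have hy : 0 < rt m t := by linarith
    have hyn : ‖((rt m t : ℝ) : ℂ)‖ = rt m t := by rw [Complex.norm_real, Real.norm_of_nonneg hy.le]
    set y := rt m t with hyd
    have h4 : ‖∑ i ∈ Finset.range p.natDegree, MvPolynomial.eval (u m t) (p.coeff i) * ((y : ℝ) : ℂ) ^ i‖ ≤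
        δ / 2 * y ^ p.natDegree := by
      refine (norm_sum_le _ _).trans ?_
      have h5 : ∀ i ∈ Finset.range p.natDegree, ‖MvPolynomial.eval (u m t) (p.coeff i) * ((y : ℝ) : ℂ) ^ i‖ ≤
          δ / (2 * (p.natDegree + 1)) * y ^ p.natDegree := by
        intro i hi
        rw [norm_mul, norm_pow, hyn]
        have h6 : i + 1 ≤ p.natDegree := Finset.mem_range.1 hi
        calc ‖MvPolynomial.eval (u m t) (p.coeff i)‖ * y ^ i ≤ (δ / (2 * (p.natDegree + 1)) * y) * y ^ i :=
              mul_le_mul_of_nonneg_right (h2 i hi) (by positivity)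
          _ = δ / (2 * (p.natDegree + 1)) * y ^ (i + 1) := by ring
          _ ≤ _ := mul_le_mul_of_nonneg_left (pow_le_pow_right₀ h3 h6) (by positivity)
      refine (Finset.sum_le_sum h5).trans ?_
      rw [Finset.sum_const, Finset.card_range, nsmul_eq_mul]
      have h7 : (p.natDegree : ℝ) * (δ / (2 * (p.natDegree + 1)) * y ^ p.natDegree) =
          (p.natDegree / (p.natDegree + 1)) * (δ / 2 * y ^ p.natDegree) := by
        field_simp
      rw [h7]
      refine mul_le_of_le_one_left (by positivity) ?_
      rw [div_le_one (by positivity)]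
      linarith
    have h8 : δ * y ^ p.natDegree ≤ ‖MvPolynomial.eval (u m t) (p.coeff p.natDegree) * ((y : ℝ) : ℂ) ^ p.natDegree‖ := by
      rw [norm_mul, norm_pow, hyn]
      exact mul_le_mul_of_nonneg_right h1 (by positivity)
    have h9 := norm_sub_norm_le (MvPolynomial.eval (u m t) (p.coeff p.natDegree) * ((y : ℝ) : ℂ) ^ p.natDegree)
      (-∑ i ∈ Finset.range p.natDegree, MvPolynomial.eval (u m t) (p.coeff i) * ((y : ℝ) : ℂ) ^ i)
    rw [sub_neg_eq_add, norm_neg, add_comm (MvPolynomial.eval (u m t) (p.coeff p.natDegree) * _)] at h9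
    have h10 : (1 : ℝ) ≤ y ^ p.natDegree := one_le_pow₀ h3
    nlinarith

lemma logs_indep : Pool.Agent.Y771.KF.AIndepS logs half := by
  intro P hP
  by_contra hne
  set Q : MvPolynomial (Fin 3) ℂ := MvPolynomial.rename (_root_.finSuccEquiv 2).symm P with hQ
  have hQ0 : Q ≠ 0 := by
    rw [hQ]
    exact (map_ne_zero_iff _ (MvPolynomial.rename_injective _ (_root_.finSuccEquiv 2).symm.injective)).2 hne
  obtain ⟨δ, hδ, hbig⟩ := big 3 Q hQ0
  obtain ⟨t, ht⟩ := hbig.exists
  have h1 : MvPolynomial.eval (u 3 t) Q = 0 := by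
    rw [hQ, MvPolynomial.eval_rename]
    have hre : 1 < rt 2 t := by
      change 1 < Real.exp (Real.exp t)
      exact Real.one_lt_exp_iff.2 (Real.exp_pos t)
    have h2 := hP ((rt 2 t : ℝ) : ℂ) (by simpa [half] using hre)
    rw [← h2]
    congr 2
    have hl1 : Complex.log ((rt 2 t : ℝ) : ℂ) = ((rt 1 t : ℝ) : ℂ) := by
      rw [← Complex.ofReal_log (by linarith : (0 : ℝ) ≤ rt 2 t)]
      congr 1
      exact Real.log_exp (rt 1 t)
    have hl0 : Complex.log ((rt 1 t : ℝ) : ℂ) = ((rt 0 t : ℝ) : ℂ) := by
      have hp : 0 < rt 1 t := Real.exp_pos t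
      rw [← Complex.ofReal_log hp.le]
      congr 1
      exact Real.log_exp (rt 0 t)
    funext o
    cases o with
    | none => simp [u]
    | some q =>
      fin_cases q
      · simp [u, logs, hl1]
      · simp [u, logs, hl1, hl0]
  rw [h1, norm_zero] at ht
  linarith

/-- the `2 n + 1` numbers `π`, `log s_j`, `log log s_j` -/
noncomputable def numbers {n : ℕ} (s : Fin n → ℂ) (x : Option (Fin n × Fin 2)) : ℂ :=
  x.elim (Real.pi : ℂ) fun c => logs c.2 (s c.1)

/-- every nonzero polynomial in `2 n + 1` variables with coefficients in `K` of height at most `T ^ A`, of degree at most `d` in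
each variable, takes at the numbers `π`, `log s_j`, `log log s_j` a value of absolute value greater than `T ^ (-B)` -/
def Measure {n : ℕ} (K : IntermediateField ℚ ℂ) [NumberField K] (d : ℕ) (A B T : ℝ) (s : Fin n → K) : Prop :=
  ∀ P : MvPolynomial (Option (Fin n × Fin 2)) K, P ≠ 0 → (∀ i, P.degreeOf i ≤ d) →
    (∀ e, mulHeight₁ (P.coeff e) ≤ T ^ A) →
      T ^ (-B) < ‖MvPolynomial.eval₂ (algebraMap K ℂ) (numbers fun j => (s j : ℂ)) P‖

/-- **Theorem.** Let `n ≥ 1`. There is a subset `E` of `ℂ ^ n` of Hausdorff dimension at most `2 (n - 1)` such that for all `z`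
outside of `E` whose coordinates have real parts greater than `1`, all number fields `K ⊂ ℂ`, all `d`, `A` and `w > 0` there are
`B` and `T₀` such that for all `T ≥ T₀` and all `n`-tuples `s` of elements of `K` of height at most `T` with
`|s_j - z_j| ≤ T ^ (-w)` the numbers `π`, `log s_j`, `log log s_j` have the property `Measure`. -/
theorem result (n : ℕ) (hn : 1 ≤ n) :
    ∃ E : Set (Fin n → ℂ), dimH E ≤ ((2 * (n - 1) : ℕ) : ℝ≥0∞) ∧ ∀ z ∉ E, (∀ j, 1 < (z j).re) →
      ∀ (K : IntermediateField ℚ ℂ) [NumberField K] (d : ℕ) (A w : ℝ), 0 < w → ∃ B T₀ : ℝ, ∀ T ≥ T₀,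
        ∀ s : Fin n → K, (∀ j, mulHeight₁ (s j) ≤ T ∧ ‖(s j : ℂ) - z j‖ ≤ T ^ (-w)) → Measure K d A B T s := by
  classical
  have hnn : Nonempty (Fin n) := ⟨⟨0, hn⟩⟩
  obtain ⟨E, hE1, hE2⟩ := Pool.Agent.Helper264.NT.mainK (𝕜 := ℂ) (X := Fin n) (RingHom.id ℂ) (fun _ => rfl)
    (fun _ (q : Fin 2) => logs q) (fun _ : Unit => Real.pi) (fun _ => half) (fun _ => half_open) (fun _ => half_preconn)
    (fun _ q => logs_an q) (fun _ => logs_indep) Pool.Agent.Y124.goodXi_pi
  refine ⟨E, by simpa using hE1, fun z hz hz1 K _ d A w hw => ?_⟩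
  obtain ⟨B, T0, h⟩ := hE2 z hz hz1 K d A w hw
  refine ⟨B, T0, fun T hT s hs => ?_⟩
  refine Pool.Agent.Helper264.NT.norel_rename (Equiv.optionEquivSumPUnit (Fin n × Fin 2)) (algebraMap K ℂ)
    (fun _ (q : Fin 2) => logs q) (fun _ : Unit => Real.pi) d A B T s (h T hT s hs) (fun k => (hs k).1) _ ?_
  intro o
  cases o <;> rfl

end Pool.Agent.Results.MP_4cc0e5_nt.LogLogNearEveryPoint
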